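import Pool.Agent.H.MP_ed087a_al.B

namespace Pool.Agent.Results.MP_ed087a_al.No

open Pool.Agent.H.MP_1c82e3_an Pool.Agent.H.MP_ed087a_al

theorem result : ∃ (E : Type) (_ : AddCommGroup E) (_ : Module ℝ E) (_ : TopologicalSpace E)
    (H : Type) (_ : Group H) (_ : TopologicalSpace H) (_ : ChartedSpace E H)
    (F : Type) (_ : AddCommGroup F) (_ : Module ℝ F) (_ : TopologicalSpace F)
    (G : Type) (_ : Group G) (_ : TopologicalSpace G) (_ : ChartedSpace F G) (α : H →* G),
    IsLie E H ∧ IsLie F G ∧ Continuous α ∧ ¬ SmoothOn E F α Set.univ :=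
  ⟨ℝ, inferInstance, inferInstance, inferInstance, Multiplicative ℝ, inferInstance, inferInstance,
    csR, AA, inferInstance, inferInstance, inferInstance, AAˣ, inferInstance, inferInstance,
    csA, al, lie_R, lie_units AA, al_cont, al_not⟩

end Pool.Agent.Results.MP_ed087a_al.No
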